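import Mathlib
import Pool.Agent.Work.MP_b05911_co.Prism

set_option autoImplicit false

namespace Pool.Agent.Results.MP_b05911_co.CubicCounterexample

universe u v

/-- `c` is a star edge-colouring of the graph `G`: it is proper (two different edges with a common
end get different colours), and no path and no cycle with four edges is bichromatic, that is, for
no path and no cycle with four edges are there colours `x`, `y` such that each of its edges has
colour `x` or `y`. The colouring is a function on the set `G.edgeSet` of the edges of `G`. -/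
structure IsStarEdgeColouring {V : Type u} {α : Type v} (G : SimpleGraph V)
    (c : G.edgeSet → α) : Prop where
  /-- Two different edges with a common end get different colours. -/
  proper : ∀ e f : G.edgeSet, e ≠ f → ∀ w : V, w ∈ (e : Sym2 V) → w ∈ (f : Sym2 V) → c e ≠ c f
  /-- No path with four edges uses only two colours. -/
  path : ∀ (a b : V) (p : G.Walk a b), p.IsPath → p.length = 4 →
    ¬ ∃ x y : α, ∀ e : G.edgeSet, (e : Sym2 V) ∈ p.edges → c e = x ∨ c e = y
  /-- No cycle with four edges uses only two colours. -/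
  cycle : ∀ (a : V) (p : G.Walk a a), p.IsCycle → p.length = 4 →
    ¬ ∃ x y : α, ∀ e : G.edgeSet, (e : Sym2 V) ∈ p.edges → c e = x ∨ c e = y

/-- `k` is the star chromatic index of `G`: the least number of colours in a star edge-colouring
of `G`. -/
def IsStarChromaticIndex {V : Type u} (G : SimpleGraph V) (k : ℕ) : Prop :=
  IsLeast {m : ℕ | ∃ c : G.edgeSet → Fin m, IsStarEdgeColouring G c} k

/-- `G` is `k`-star edge choosable: for every edge `k`-list `L` (it assigns to each edge `e` a set
`L e` with exactly `k` elements, of any kind) some star edge-colouring `c` of `G` satisfies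
`c e ∈ L e` for every edge `e`. -/
def IsStarEdgeChoosable {V : Type u} (G : SimpleGraph V) (k : ℕ) : Prop :=
  ∀ (α : Type v) (L : G.edgeSet → Finset α), (∀ e : G.edgeSet, (L e).card = k) →
    ∃ c : G.edgeSet → α, IsStarEdgeColouring G c ∧ ∀ e : G.edgeSet, c e ∈ L e

/-- `l` is the list star chromatic index (star edge choice number) of `G`: the least `k` such that
`G` is `k`-star edge choosable. -/
def IsListStarChromaticIndex {V : Type u} (G : SimpleGraph V) (l : ℕ) : Prop :=
  IsLeast {k : ℕ | IsStarEdgeChoosable.{u, v} G k} l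

/-! ### General facts -/

/-- An injective colouring is a star edge-colouring. -/
theorem isStar_of_injective {V : Type u} {α : Type v} (G : SimpleGraph V) (c : G.edgeSet → α)
    (hc : Function.Injective c) : IsStarEdgeColouring G c := by
  have key : ∀ (a b : V) (p : G.Walk a b), p.edges.Nodup → p.length = 4 →
      ¬ ∃ x y : α, ∀ e : G.edgeSet, (e : Sym2 V) ∈ p.edges → c e = x ∨ c e = y := by
    rintro a b p hn hl ⟨x, y, hxy⟩
    classical
    have hlen : p.edges.length = 4 := by rw [SimpleGraph.Walk.length_edges, hl]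
    have hmem : ∀ i : Fin 4, p.edges[i.val]'(by omega) ∈ p.edges := fun i => List.getElem_mem _
    have hE : ∀ i : Fin 4, p.edges[i.val]'(by omega) ∈ G.edgeSet := fun i =>
      p.edges_subset_edgeSet (hmem i)
    let g : Fin 4 → G.edgeSet := fun i => ⟨p.edges[i.val]'(by omega), hE i⟩
    have hg : Function.Injective g := by
      intro i j hij
      have h1 : p.edges[i.val]'(by omega) = p.edges[j.val]'(by omega) := congrArg Subtype.val hij
      have h2 := (List.Nodup.getElem_inj_iff hn).1 h1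
      exact Fin.ext h2
    have h0 : ∀ i : Fin 4, c (g i) ∈ ({x, y} : Finset α) := by
      intro i
      have := hxy (g i) (hmem i)
      simpa using this
    have h1 : (Finset.univ.image fun i : Fin 4 => c (g i)).card = 4 := by
      rw [Finset.card_image_of_injective (f := fun i : Fin 4 => c (g i)) _ (hc.comp hg)]
      rfl
    have h2 : (Finset.univ.image fun i : Fin 4 => c (g i)) ⊆ ({x, y} : Finset α) := by
      intro z hz
      obtain ⟨i, -, rfl⟩ := Finset.mem_image.1 hz
      exact h0 i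
    have h3 := Finset.card_le_card h2
    have h4 : ({x, y} : Finset α).card ≤ 2 := Finset.card_le_two
    omega
  refine ⟨fun e f hef w _ _ h => hef (hc h), fun a b p hp hl => key a b p ?_ hl,
    fun a p hp hl => key a a p ?_ hl⟩
  · exact hp.isTrail.edges_nodup
  · exact hp.isTrail.edges_nodup

/-- A finite graph is star edge choosable for lists of size the number of edges. -/
theorem exists_choosable {V : Type u} [Finite V] (G : SimpleGraph V) :
    ∃ k : ℕ, IsStarEdgeChoosable.{u, v} G k := by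
  classical
  have : Fintype V := Fintype.ofFinite V
  refine ⟨Fintype.card G.edgeSet, fun α L hL => ?_⟩
  obtain ⟨c, hc, hm⟩ := (Finset.all_card_le_biUnion_card_iff_exists_injective L).1 (by
    intro s
    rcases s.eq_empty_or_nonempty with rfl | ⟨e, he⟩
    · simp
    · calc s.card ≤ Fintype.card G.edgeSet := Finset.card_le_univ s
        _ = (L e).card := (hL e).symm
        _ ≤ (s.biUnion L).card := Finset.card_le_card (Finset.subset_biUnion_of_mem L he))
  exact ⟨c, isStar_of_injective G c hc, hm⟩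

/-- Star edge choosability is monotone in the size of the lists. -/
theorem choosable_mono {V : Type u} {G : SimpleGraph V} {k l : ℕ} (hkl : k ≤ l)
    (h : IsStarEdgeChoosable.{u, v} G k) : IsStarEdgeChoosable.{u, v} G l := by
  intro α L hL
  have hsub : ∀ e : G.edgeSet, ∃ t ⊆ L e, t.card = k := fun e =>
    Finset.exists_subset_card_eq (by rw [hL e]; exact hkl)
  choose L' h1 h2 using hsub
  obtain ⟨c, hc, hm⟩ := h α L' h2
  exact ⟨c, hc, fun e => h1 e (hm e)⟩

/-- The star condition in terms of vertices. -/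
theorem star_walk {V : Type u} {α : Type v} {G : SimpleGraph V} {c : G.edgeSet → α}
    (hc : IsStarEdgeColouring G c) {x0 x1 x2 x3 x4 : V} (h0 : G.Adj x0 x1) (h1 : G.Adj x1 x2)
    (h2 : G.Adj x2 x3) (h3 : G.Adj x3 x4) (n0 : x0 ≠ x2) (n1 : x1 ≠ x3) (n2 : x2 ≠ x4) :
    ¬ (c ⟨s(x0, x1), h0⟩ = c ⟨s(x2, x3), h2⟩ ∧ c ⟨s(x1, x2), h1⟩ = c ⟨s(x3, x4), h3⟩) := by
  rintro ⟨e1, e2⟩
  have a03 : x0 ≠ x3 := by
    rintro rfl
    refine hc.proper ⟨s(x0, x1), h0⟩ ⟨s(x2, x0), h2⟩ ?_ x0 (Sym2.mem_mk_left _ _)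
      (Sym2.mem_mk_right _ _) e1
    intro h
    have h' : s(x0, x1) = s(x2, x0) := congrArg Subtype.val h
    rw [Sym2.eq_iff] at h'
    rcases h' with ⟨h', -⟩ | ⟨-, h'⟩
    · exact n0 h'
    · exact h1.ne h'
  have a14 : x1 ≠ x4 := by
    rintro rfl
    refine hc.proper ⟨s(x1, x2), h1⟩ ⟨s(x3, x1), h3⟩ ?_ x1 (Sym2.mem_mk_left _ _)
      (Sym2.mem_mk_right _ _) e2
    intro h
    have h' : s(x1, x2) = s(x3, x1) := congrArg Subtype.val h
    rw [Sym2.eq_iff] at h'
    rcases h' with ⟨h', -⟩ | ⟨-, h'⟩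
    · exact n1 h'
    · exact h2.ne h'
  by_cases h04 : x0 = x4
  · subst h04
    refine hc.cycle x0 (.cons h0 (.cons h1 (.cons h2 (.cons h3 .nil)))) ?_ rfl
      ⟨c ⟨s(x0, x1), h0⟩, c ⟨s(x1, x2), h1⟩, ?_⟩
    · rw [SimpleGraph.Walk.cons_isCycle_iff]
      refine ⟨?_, ?_⟩
      · simp only [SimpleGraph.Walk.cons_isPath_iff, SimpleGraph.Walk.support_cons,
          SimpleGraph.Walk.support_nil, List.mem_cons, List.not_mem_nil, or_false, not_or,
          SimpleGraph.Walk.IsPath.nil, true_and]
        exact ⟨⟨h3.ne, h2.ne, n0.symm⟩, h1.ne, n1, h0.ne.symm⟩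
      · simp only [SimpleGraph.Walk.edges_cons, SimpleGraph.Walk.edges_nil, List.mem_cons,
          List.not_mem_nil, or_false, not_or]
        refine ⟨?_, ?_, ?_⟩ <;> rw [Sym2.eq_iff]
        · rintro (⟨h, -⟩ | ⟨h, -⟩)
          · exact h0.ne h
          · exact n0 h
        · rintro (⟨h, -⟩ | ⟨h, -⟩)
          · exact n0 h
          · exact a03 h
        · rintro (⟨h, -⟩ | ⟨-, h⟩)
          · exact a03 h
          · exact n1 h
    · rintro ⟨e, he⟩ hmem
      simp only [SimpleGraph.Walk.edges_cons, SimpleGraph.Walk.edges_nil, List.mem_cons,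
          List.not_mem_nil, or_false] at hmem
      rcases hmem with rfl | rfl | rfl | rfl
      · exact Or.inl rfl
      · exact Or.inr rfl
      · exact Or.inl e1.symm
      · exact Or.inr e2.symm
  · refine hc.path x0 x4 (.cons h0 (.cons h1 (.cons h2 (.cons h3 .nil)))) ?_ rfl
      ⟨c ⟨s(x0, x1), h0⟩, c ⟨s(x1, x2), h1⟩, ?_⟩
    · simp only [SimpleGraph.Walk.cons_isPath_iff, SimpleGraph.Walk.support_cons,
          SimpleGraph.Walk.support_nil, List.mem_cons, List.not_mem_nil, or_false, not_or,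
          SimpleGraph.Walk.IsPath.nil, true_and]
      exact ⟨⟨⟨h3.ne, h2.ne, n2⟩, h1.ne, n1, a14⟩, h0.ne, n0, a03, h04⟩
    · rintro ⟨e, he⟩ hmem
      simp only [SimpleGraph.Walk.edges_cons, SimpleGraph.Walk.edges_nil, List.mem_cons,
          List.not_mem_nil, or_false] at hmem
      rcases hmem with rfl | rfl | rfl | rfl
      · exact Or.inl rfl
      · exact Or.inr rfl
      · exact Or.inl e1.symm
      · exact Or.inr e2.symm

/-- The proper condition in terms of vertices. -/
theorem proper_walk {V : Type u} {α : Type v} {G : SimpleGraph V} {c : G.edgeSet → α}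
    (hc : IsStarEdgeColouring G c) {x0 x1 x2 : V} (h0 : G.Adj x0 x1) (h1 : G.Adj x1 x2)
    (n0 : x0 ≠ x2) : c ⟨s(x0, x1), h0⟩ ≠ c ⟨s(x1, x2), h1⟩ := by
  refine hc.proper _ _ ?_ x1 (Sym2.mem_mk_right _ _) (Sym2.mem_mk_left _ _)
  intro h
  have h' : s(x0, x1) = s(x1, x2) := congrArg Subtype.val h
  rw [Sym2.eq_iff] at h'
  rcases h' with ⟨h', -⟩ | ⟨h', -⟩
  · exact h0.ne h'
  · exact n0 h'

/-- A function on pairs of vertices that is symmetric on edges and satisfies the conditions in
terms of vertices gives a star edge-colouring. -/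
theorem isStar_of_walk {V : Type u} {α : Type v} {G : SimpleGraph V} {c : G.edgeSet → α}
    (hp : ∀ (x0 x1 x2 : V) (h0 : G.Adj x0 x1) (h1 : G.Adj x1 x2), x0 ≠ x2 →
      c ⟨s(x0, x1), h0⟩ ≠ c ⟨s(x1, x2), h1⟩)
    (hs : ∀ (x0 x1 x2 x3 x4 : V) (h0 : G.Adj x0 x1) (h1 : G.Adj x1 x2)
      (h2 : G.Adj x2 x3) (h3 : G.Adj x3 x4), x0 ≠ x2 → x1 ≠ x3 → x2 ≠ x4 →
      ¬ (c ⟨s(x0, x1), h0⟩ = c ⟨s(x2, x3), h2⟩ ∧ c ⟨s(x1, x2), h1⟩ = c ⟨s(x3, x4), h3⟩)) :
    IsStarEdgeColouring G c := by
  have key : ∀ (a b : V) (p : G.Walk a b), p.edges.Nodup → p.length = 4 →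
      ¬ ∃ x y : α, ∀ e : G.edgeSet, (e : Sym2 V) ∈ p.edges → c e = x ∨ c e = y := by
    rintro a b p hn hl ⟨x, y, hxy⟩
    cases p with
    | nil => simp at hl
    | @cons _ x1 _ h0 p =>
    cases p with
    | nil => simp at hl
    | @cons _ x2 _ h1 p =>
    cases p with
    | nil => simp at hl
    | @cons _ x3 _ h2 p =>
    cases p with
    | nil => simp at hl
    | @cons _ x4 _ h3 p =>
    cases p with
    | @cons _ x5 _ h4 p => simp at hl
    | nil =>
      simp only [SimpleGraph.Walk.edges_cons, SimpleGraph.Walk.edges_nil, List.nodup_cons,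
        List.mem_cons, List.not_mem_nil, or_false, not_or] at hn hxy
      have n0 : a ≠ x2 := by
        rintro rfl
        exact hn.1.1 (Sym2.eq_swap)
      have n1 : x1 ≠ x3 := by
        rintro rfl
        exact hn.2.1.1 (Sym2.eq_swap)
      have n2 : x2 ≠ b := by
        rintro rfl
        exact hn.2.2.1 (Sym2.eq_swap)
      have c0 := hxy ⟨s(a, x1), h0⟩ (Or.inl rfl)
      have c1 := hxy ⟨s(x1, x2), h1⟩ (Or.inr (Or.inl rfl))
      have c2 := hxy ⟨s(x2, x3), h2⟩ (Or.inr (Or.inr (Or.inl rfl)))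
      have c3 := hxy ⟨s(x3, b), h3⟩ (Or.inr (Or.inr (Or.inr rfl)))
      have d0 := hp _ _ _ h0 h1 n0
      have d1 := hp _ _ _ h1 h2 n1
      have d2 := hp _ _ _ h2 h3 n2
      refine hs _ _ _ _ _ h0 h1 h2 h3 n0 n1 n2 ?_
      rcases c0 with c0 | c0 <;> rcases c1 with c1 | c1 <;> rcases c2 with c2 | c2 <;>
        rcases c3 with c3 | c3 <;> rw [c0, c1] at d0 <;> rw [c1, c2] at d1 <;>
        rw [c2, c3] at d2 <;> first
          | exact absurd rfl d0
          | exact absurd rfl d1
          | exact absurd rfl d2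
          | exact ⟨c0.trans c2.symm, c1.trans c3.symm⟩
  refine ⟨?_, fun a b p hp' hl => key a b p hp'.isTrail.edges_nodup hl,
    fun a p hp' hl => key a a p hp'.isTrail.edges_nodup hl⟩
  rintro ⟨e, he⟩ ⟨f, hf⟩ hef w hwe hwf
  obtain ⟨a, rfl⟩ := hwe
  obtain ⟨b, rfl⟩ := hwf
  have hab : a ≠ b := by
    rintro rfl
    exact hef rfl
  have h1 : G.Adj a w := (show G.Adj w a from he).symm
  have e1 : (⟨s(w, a), he⟩ : G.edgeSet) = ⟨s(a, w), h1⟩ := Subtype.ext Sym2.eq_swap
  rw [e1]
  exact hp a w b h1 hf hab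

open Pool.Agent.Work.MP_b05911_co

/-- The lists of the counterexample on the edges. -/
noncomputable def prismLists (e : Prism.G.edgeSet) : Finset ℕ :=
  Prism.L (e : Sym2 (Fin 40)).out.1 (e : Sym2 (Fin 40)).out.2

theorem prismLists_card (e : Prism.G.edgeSet) : (prismLists e).card = 4 := Prism.L_card _ _

theorem prismLists_subset (e : Prism.G.edgeSet) : prismLists e ⊆ Finset.range 5 :=
  Finset.erase_subset _ _

theorem out_cases {a b : Fin 40} :
    (s(a, b).out.1 = a ∧ s(a, b).out.2 = b) ∨ (s(a, b).out.1 = b ∧ s(a, b).out.2 = a) := by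
  have h : s(s(a, b).out.1, s(a, b).out.2) = s(a, b) := Quot.out_eq _
  rw [Sym2.eq_iff] at h
  exact h

theorem prismLists_mk {a b : Fin 40} (h : Prism.G.Adj a b) :
    prismLists ⟨s(a, b), h⟩ = Prism.L a b := by
  unfold prismLists
  have hs : Prism.L b a = Prism.L a b := by
    unfold Prism.L
    rw [Prism.missE_symm a b h]
  rcases out_cases (a := a) (b := b) with ⟨h1, h2⟩ | ⟨h1, h2⟩
  · change Prism.L s(a, b).out.1 s(a, b).out.2 = _
    rw [h1, h2]
  · change Prism.L s(a, b).out.1 s(a, b).out.2 = _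
    rw [h1, h2, hs]

/-- No star edge-colouring of the prism has its colours in the lists. -/
theorem prism_no_star (c : Prism.G.edgeSet → ℕ) (hc : IsStarEdgeColouring Prism.G c)
    (hL : ∀ e, c e ∈ prismLists e) : False := by
  classical
  let col : Fin 40 → Fin 40 → ℕ := fun a b =>
    if h : Prism.G.Adj a b then c ⟨s(a, b), h⟩ else 0
  have hcol : ∀ a b (h : Prism.G.Adj a b), col a b = c ⟨s(a, b), h⟩ := fun a b h => dif_pos h
  apply Prism.no_star col
  refine ⟨?_, ?_, ?_, ?_⟩
  · intro a b h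
    rw [hcol a b h, hcol b a h.symm]
    congr 1
    exact Subtype.ext Sym2.eq_swap
  · intro a b h
    rw [hcol a b h, ← prismLists_mk h]
    exact hL _
  · intro a b d hab hbd had
    rw [hcol a b hab, hcol b d hbd]
    exact proper_walk hc hab hbd had
  · intro x0 x1 x2 x3 x4 h0 h1 h2 h3 n0 n1 n2
    rw [hcol _ _ h0, hcol _ _ h1, hcol _ _ h2, hcol _ _ h3]
    exact star_walk hc h0 h1 h2 h3 n0 n1 n2

/-- The colouring of the prism with four colours. -/
noncomputable def prismCol (e : Prism.G.edgeSet) : Fin 4 :=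
  ⟨Prism.col4 (e : Sym2 (Fin 40)).out.1 (e : Sym2 (Fin 40)).out.2 % 4, Nat.mod_lt _ (by norm_num)⟩

theorem prismCol_mk {a b : Fin 40} (h : Prism.G.Adj a b) :
    (prismCol ⟨s(a, b), h⟩).val = Prism.col4 a b := by
  have hlt : Prism.col4 a b < 4 := Prism.col4_lt a b h
  have hs : Prism.col4 b a = Prism.col4 a b := (Prism.col4_symm a b h).symm
  rcases out_cases (a := a) (b := b) with ⟨h1, h2⟩ | ⟨h1, h2⟩
  · change Prism.col4 s(a, b).out.1 s(a, b).out.2 % 4 = _
    rw [h1, h2, Nat.mod_eq_of_lt hlt]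
  · change Prism.col4 s(a, b).out.1 s(a, b).out.2 % 4 = _
    rw [h1, h2, hs, Nat.mod_eq_of_lt hlt]

theorem prismCol_star : IsStarEdgeColouring Prism.G prismCol := by
  refine isStar_of_walk ?_ ?_
  · intro x0 x1 x2 h0 h1 n0 h
    have h' := congrArg Fin.val h
    rw [prismCol_mk, prismCol_mk] at h'
    exact Prism.col4_proper_adj _ _ _ h0 h1 n0 h'
  · rintro x0 x1 x2 x3 x4 h0 h1 h2 h3 n0 n1 n2 ⟨e1, e2⟩
    have e1' := congrArg Fin.val e1
    have e2' := congrArg Fin.val e2
    rw [prismCol_mk, prismCol_mk] at e1' e2'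
    exact Prism.col4_star_adj _ _ _ _ _ h0 h1 h2 h3 n0 n1 n2 ⟨e1', e2'⟩

/-- Every vertex of the prism has three different neighbours. -/
theorem prism_three : ∀ a : Fin 40, Prism.G.Adj a (Prism.rung a) ∧ Prism.G.Adj a (a + 2) ∧
    Prism.G.Adj a (a - 2) ∧ Prism.rung a ≠ a + 2 ∧ Prism.rung a ≠ a - 2 ∧ a + 2 ≠ a - 2 := by
  have h : ∀ a : Fin 40, Prism.adjB a (Prism.rung a) = true ∧ Prism.adjB a (a + 2) = true ∧
    Prism.adjB a (a - 2) = true ∧ Prism.rung a ≠ a + 2 ∧ Prism.rung a ≠ a - 2 ∧
      a + 2 ≠ a - 2 := by decide +kernel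
  exact h

/-- In a star edge-colouring of the prism with colours below three every vertex sees every
colour. -/
theorem sees {m : ℕ} (hm : m ≤ 3) (c : Prism.G.edgeSet → Fin m)
    (hc : IsStarEdgeColouring Prism.G c) (a : Fin 40) (x : Fin m) :
    ∃ (b : Fin 40) (h : Prism.G.Adj a b), c ⟨s(a, b), h⟩ = x := by
  obtain ⟨h1, h2, h3, n1, n2, n3⟩ := prism_three a
  have sw : ∀ (a b : Fin 40) (h : Prism.G.Adj a b),
      c ⟨s(a, b), h⟩ = c ⟨s(b, a), h.symm⟩ := fun a b h => congrArg c (Subtype.ext Sym2.eq_swap)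
  have d1 := proper_walk hc h1.symm h2 n1
  have d2 := proper_walk hc h1.symm h3 n2
  have d3 := proper_walk hc h2.symm h3 n3
  rw [← sw a (Prism.rung a) h1] at d1 d2
  rw [← sw a (a + 2) h2] at d3
  by_contra hcon
  push Not at hcon
  have c1 := hcon _ h1
  have c2 := hcon _ h2
  have c3 := hcon _ h3
  have l1 := (c ⟨s(a, Prism.rung a), h1⟩).isLt
  have l2 := (c ⟨s(a, a + 2), h2⟩).isLt
  have l3 := (c ⟨s(a, a - 2), h3⟩).isLt
  have l4 := x.isLt
  rw [Ne, Fin.ext_iff] at d1 d2 d3 c1 c2 c3
  omega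

/-- The prism has no star edge-colouring with at most three colours. -/
theorem four_le {m : ℕ} (c : Prism.G.edgeSet → Fin m) (hc : IsStarEdgeColouring Prism.G c) :
    4 ≤ m := by
  by_contra hm
  have hm' : m ≤ 3 := by omega
  obtain ⟨-, h1, h2, -, -, n3⟩ := prism_three 0
  -- the walk `0 - 2, 0, 0 + 2, w, z`
  have d := proper_walk hc h2.symm h1 n3.symm
  obtain ⟨w, hw, ew⟩ := sees hm' c hc (0 + 2) (c ⟨s(0 - 2, 0), h2.symm⟩)
  obtain ⟨z, hz, ez⟩ := sees hm' c hc w (c ⟨s(0, 0 + 2), h1⟩)
  have nw : (0 : Fin 40) ≠ w := by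
    rintro rfl
    apply d
    rw [← ew]
    exact congrArg c (Subtype.ext Sym2.eq_swap)
  have nz : (0 : Fin 40) + 2 ≠ z := by
    rintro rfl
    apply d
    rw [← ez, ← ew]
    exact congrArg c (Subtype.ext Sym2.eq_swap)
  exact star_walk hc h2.symm h1 hw hz n3.symm nw nz ⟨ew.symm, ez.symm⟩

theorem prism_connected : Prism.G.Connected := by
  have h1 : ∀ q : ℕ, Prism.G.Reachable (Prism.T 0) (Prism.T q) := by
    intro q
    induction q with
    | zero => exact SimpleGraph.Reachable.refl _
    | succ q ih => exact ih.trans (Prism.aTT q).reachable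
  have h2 : ∀ q : ℕ, Prism.G.Reachable (Prism.T 0) (Prism.B q) := fun q =>
    (h1 q).trans (Prism.aTB q).reachable
  have h3 : ∀ a : Fin 40, Prism.G.Reachable (Prism.T 0) a := by
    intro a
    rcases Nat.even_or_odd' a.val with ⟨q, hq | hq⟩
    · have : a = Prism.T q := by
        apply Fin.ext
        rw [Prism.T_val]
        have := a.isLt
        omega
      rw [this]
      exact h1 q
    · have : a = Prism.B q := by
        apply Fin.ext
        rw [Prism.B_val]
        have := a.isLt
        omega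
      rw [this]
      exact h2 q
  exact ⟨fun a b => (h3 a).symm.trans (h3 b)⟩

theorem prism_bipartite : Prism.G.Colorable 2 := by
  have h : ∀ a b : Fin 40, Prism.adjB a b = true →
      (Fin.ofNat 2 (a.val / 2 + a.val) : Fin 2) ≠ Fin.ofNat 2 (b.val / 2 + b.val) := by
    decide +kernel
  exact ⟨SimpleGraph.Coloring.mk (fun a => Fin.ofNat 2 (a.val / 2 + a.val))
    fun {a b} hab => h a b hab⟩

theorem prism_cubic (a : Fin 40) : (Prism.G.neighborSet a).ncard = 3 := by
  obtain ⟨h1, h2, h3, n1, n2, n3⟩ := prism_three a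
  have : Prism.G.neighborSet a = {Prism.rung a, a + 2, a - 2} := by
    ext b
    simp only [SimpleGraph.mem_neighborSet, Set.mem_insert_iff, Set.mem_singleton_iff]
    constructor
    · intro h
      obtain ⟨j, rfl⟩ := Prism.exists_nbr a b h
      unfold Prism.nbr
      split_ifs
      · exact Or.inl rfl
      · exact Or.inr (Or.inl rfl)
      · exact Or.inr (Or.inr rfl)
    · rintro (rfl | rfl | rfl)
      · exact h1
      · exact h2
      · exact h3
  rw [this, Set.ncard_eq_toFinset_card']
  simp [n1, n2, n3]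

/-- The list star chromatic index of a graph may be larger than its star chromatic index: there is
a connected bipartite graph on 40 vertices, every vertex of which has exactly three neighbours,
whose star chromatic index is 4 and whose list star chromatic index is larger than 4. Indeed there
are sets `L e` of exactly four of the five colours `0, 1, 2, 3, 4`, one for each edge `e`, such
that no star edge-colouring `c` satisfies `c e ∈ L e` for every edge `e`. -/
theorem result : ∃ (G : SimpleGraph (Fin 40)) (l : ℕ),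
    IsStarChromaticIndex G 4 ∧ IsListStarChromaticIndex.{0, v} G l ∧ 4 < l ∧
    (∃ L : G.edgeSet → Finset ℕ, (∀ e : G.edgeSet, (L e).card = 4 ∧ L e ⊆ Finset.range 5) ∧
      ¬ ∃ c : G.edgeSet → ℕ, IsStarEdgeColouring G c ∧ ∀ e : G.edgeSet, c e ∈ L e) ∧
    G.Connected ∧ G.Colorable 2 ∧ ∀ a : Fin 40, (G.neighborSet a).ncard = 3 := by
  have hL4 : ¬ ∃ c : Prism.G.edgeSet → ℕ, IsStarEdgeColouring Prism.G c ∧
      ∀ e : Prism.G.edgeSet, c e ∈ prismLists e := by
    rintro ⟨c, hc, hm⟩
    exact prism_no_star c hc hm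
  have hne : ({k : ℕ | IsStarEdgeChoosable.{0, v} Prism.G k}).Nonempty := exists_choosable Prism.G
  refine ⟨Prism.G, sInf {k : ℕ | IsStarEdgeChoosable.{0, v} Prism.G k}, ⟨⟨prismCol, prismCol_star⟩,
    ?_⟩, ⟨Nat.sInf_mem hne, fun k hk => Nat.sInf_le hk⟩, ?_,
    ⟨prismLists, fun e => ⟨prismLists_card e, prismLists_subset e⟩, hL4⟩, prism_connected,
    prism_bipartite, prism_cubic⟩
  · rintro m ⟨c, hc⟩
    exact four_le c hc
  · by_contra hcon
    have h4 : IsStarEdgeChoosable.{0, v} Prism.G 4 :=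
      choosable_mono (not_lt.1 hcon) (Nat.sInf_mem hne)
    -- lists of natural numbers, moved to the universe `v`
    obtain ⟨c, hc, hm⟩ := h4 (ULift.{v} ℕ)
      (fun e => (prismLists e).map ⟨ULift.up, ULift.up_injective⟩)
      (fun e => by rw [Finset.card_map]; exact prismLists_card e)
    have hinj : Function.Injective (ULift.down : ULift.{v} ℕ → ℕ) := ULift.down_injective
    refine hL4 ⟨fun e => (c e).down, ?_, fun e => ?_⟩
    · refine ⟨fun e f hef w h1 h2 h => hc.proper e f hef w h1 h2 (hinj h), ?_, ?_⟩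
      · rintro a b p hp hl ⟨x, y, h⟩
        refine hc.path a b p hp hl ⟨ULift.up x, ULift.up y, fun e he => ?_⟩
        rcases h e he with h | h
        · exact Or.inl (hinj h)
        · exact Or.inr (hinj h)
      · rintro a p hp hl ⟨x, y, h⟩
        refine hc.cycle a p hp hl ⟨ULift.up x, ULift.up y, fun e he => ?_⟩
        rcases h e he with h | h
        · exact Or.inl (hinj h)
        · exact Or.inr (hinj h)
    · obtain ⟨z, hz, hz'⟩ := Finset.mem_map.1 (hm e)
      have : (c e).down = z := by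
        rw [← hz']
        rfl
      change (c e).down ∈ prismLists e
      rw [this]
      exact hz

end Pool.Agent.Results.MP_b05911_co.CubicCounterexample
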